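import Mathlib

/-!
A co-sober space with a continuous kernel operator whose image is not co-sober.
-/

open Set Filter Topology

namespace Pool.Agent.Results.MP_1ae613_gt.KernelImage

/-- Saturated sets: intersections of open sets. -/
def Saturated {X : Type} [TopologicalSpace X] (K : Set X) : Prop :=
  K = ⋂₀ {U | IsOpen U ∧ K ⊆ U}

/-- `k`-irreducible sets: nonempty compact saturated sets that are not the union of two proper
compact saturated subsets. -/
def KIrreducible {X : Type} [TopologicalSpace X] (G : Set X) : Prop :=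
  G.Nonempty ∧ IsCompact G ∧ Saturated G ∧
    ∀ K₁ K₂ : Set X, IsCompact K₁ → Saturated K₁ → IsCompact K₂ → Saturated K₂ →
      K₁ ∪ K₂ = G → K₁ = G ∨ K₂ = G

/-- Co-sober spaces: every `k`-irreducible set is the set of all points above some point `x` in the
specialization order (`x ≤ y` iff `x` is in the closure of `{y}`). -/
def CoSober (X : Type) [TopologicalSpace X] : Prop :=
  ∀ G : Set X, KIrreducible G → ∃ x, G = {y | x ∈ closure {y}}

/-! ### The column space over a `T1` space -/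

/-- The set `M × ℕ`. -/
structure Col (M : Type) where
  pt : M
  ht : ℕ

section Column

variable {M : Type} [TopologicalSpace M]

/-- A set `U` is open if it is upwards closed in each column and for each of its points there is a
neighbourhood `W` of the base point such that `U` contains all columns over the other points
of `W`. -/
instance : TopologicalSpace (Col M) where
  IsOpen U := (∀ p i j, (⟨p, i⟩ : Col M) ∈ U → i ≤ j → (⟨p, j⟩ : Col M) ∈ U) ∧
    ∀ a ∈ U, ∃ W : Set M, IsOpen W ∧ a.pt ∈ W ∧ ∀ q ∈ W, q ≠ a.pt → ∀ j, (⟨q, j⟩ : Col M) ∈ U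
  isOpen_univ := ⟨fun _ _ _ _ _ => trivial, fun _ _ => ⟨univ, isOpen_univ, trivial,
    fun _ _ _ _ => trivial⟩⟩
  isOpen_inter := by
    rintro U V ⟨hU, hU'⟩ ⟨hV, hV'⟩
    refine ⟨fun p i j h hij => ⟨hU p i j h.1 hij, hV p i j h.2 hij⟩, fun a ha => ?_⟩
    obtain ⟨W, hW, haW, h⟩ := hU' a ha.1
    obtain ⟨W', hW', haW', h'⟩ := hV' a ha.2
    exact ⟨W ∩ W', hW.inter hW', ⟨haW, haW'⟩, fun q hq hne j => ⟨h q hq.1 hne j, h' q hq.2 hne j⟩⟩
  isOpen_sUnion := by
    intro S hS
    refine ⟨?_, ?_⟩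
    · rintro p i j ⟨U, hU, h⟩ hij
      exact ⟨U, hU, (hS U hU).1 p i j h hij⟩
    · rintro a ⟨U, hU, h⟩
      obtain ⟨W, hW, haW, h'⟩ := (hS U hU).2 a h
      exact ⟨W, hW, haW, fun q hq hne j => ⟨U, hU, h' q hq hne j⟩⟩

theorem col_isOpen_iff {U : Set (Col M)} : IsOpen U ↔
    (∀ p i j, (⟨p, i⟩ : Col M) ∈ U → i ≤ j → (⟨p, j⟩ : Col M) ∈ U) ∧
    ∀ a ∈ U, ∃ W : Set M, IsOpen W ∧ a.pt ∈ W ∧ ∀ q ∈ W, q ≠ a.pt → ∀ j, (⟨q, j⟩ : Col M) ∈ U :=
  Iff.rfl

theorem continuous_pt : Continuous (Col.pt : Col M → M) := by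
  refine ⟨fun W hW => ?_⟩
  rw [col_isOpen_iff]
  exact ⟨fun p i j h _ => h, fun a ha => ⟨W, hW, ha, fun q hq _ _ => hq⟩⟩

/-- The kernel operator. -/
def ker (a : Col M) : Col M := ⟨a.pt, 0⟩

theorem continuous_ker : Continuous (ker : Col M → Col M) := by
  refine ⟨fun U hU => ?_⟩
  rw [col_isOpen_iff] at hU ⊢
  refine ⟨fun p i j h _ => h, fun a ha => ?_⟩
  obtain ⟨W, hW, haW, h⟩ := hU.2 _ ha
  exact ⟨W, hW, haW, fun q hq hne j => h q hq hne 0⟩

theorem ker_le (a : Col M) : ker a ∈ closure {a} := by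
  rw [mem_closure_iff]
  intro U hU ha
  exact ⟨a, (col_isOpen_iff.1 hU).1 a.pt 0 a.ht ha (Nat.zero_le _), rfl⟩

/-- The part of a column above a height. -/
def above (p : M) (n : ℕ) : Set (Col M) := {a | a.pt = p ∧ n ≤ a.ht}

/-- The open set of all points that are not below a given height in a given column. -/
theorem isOpen_notBelow [T1Space M] (p : M) (n : ℕ) : IsOpen {a : Col M | a.pt = p → n ≤ a.ht} := by
  rw [col_isOpen_iff]
  refine ⟨fun q i j h hij hq => (h hq).trans hij, fun a ha => ?_⟩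
  by_cases hp : a.pt = p
  · refine ⟨univ, isOpen_univ, trivial, fun q _ hne j hq => ?_⟩
    exact (hne (hq.trans hp.symm)).elim
  · exact ⟨{p}ᶜ, isOpen_compl_singleton, hp, fun q hq _ j hq' => (hq hq').elim⟩

theorem le_iff [T1Space M] (a b : Col M) : a ∈ closure {b} ↔ b ∈ above a.pt a.ht := by
  constructor
  · intro h
    rw [mem_closure_iff] at h
    have h1 : b.pt = a.pt := by
      by_contra hne
      obtain ⟨c, hc, hcb⟩ := h (Col.pt ⁻¹' {b.pt}ᶜ)
        (isOpen_compl_singleton.preimage continuous_pt) (fun h => hne (h : a.pt = b.pt).symm)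
      rw [mem_singleton_iff] at hcb
      exact hc (by rw [hcb]; rfl)
    refine ⟨h1, ?_⟩
    obtain ⟨c, hc, hcb⟩ := h {c : Col M | c.pt = a.pt → a.ht ≤ c.ht} (isOpen_notBelow _ _)
      (fun _ => le_refl _)
    rw [mem_singleton_iff] at hcb
    subst hcb
    exact hc h1
  · rintro ⟨h1, h2⟩
    rw [mem_closure_iff]
    intro U hU ha
    refine ⟨b, ?_, rfl⟩
    have := (col_isOpen_iff.1 hU).1 a.pt a.ht b.ht ha h2
    rw [← h1] at this
    exact this

instance [T1Space M] : T0Space (Col M) := by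
  refine ⟨fun a b h => ?_⟩
  rw [inseparable_iff_mem_closure, le_iff, le_iff] at h
  obtain ⟨⟨h1, h2⟩, ⟨h3, h4⟩⟩ := h
  cases a
  cases b
  simp only [Col.mk.injEq] at *
  exact ⟨h3, le_antisymm h2 h4⟩

theorem saturated_iff_sep {X : Type} [TopologicalSpace X] {K : Set X} :
    Saturated K ↔ ∀ x, x ∉ K → ∃ U, IsOpen U ∧ K ⊆ U ∧ x ∉ U := by
  constructor
  · intro h x hx
    rw [h] at hx
    simp only [mem_sInter, not_forall] at hx
    obtain ⟨U, ⟨hU, hKU⟩, hxU⟩ := hx
    exact ⟨U, hU, hKU, hxU⟩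
  · intro h
    apply Subset.antisymm
    · exact fun x hx U hU => hU.2 hx
    · intro x hx
      by_contra hxK
      obtain ⟨U, hU, hKU, hxU⟩ := h x hxK
      exact hxU (hx U ⟨hU, hKU⟩)

theorem col_saturated_iff [T1Space M] {K : Set (Col M)} :
    Saturated K ↔ ∀ p i j, (⟨p, i⟩ : Col M) ∈ K → i ≤ j → (⟨p, j⟩ : Col M) ∈ K := by
  rw [saturated_iff_sep]
  constructor
  · intro h p i j hi hij
    by_contra hj
    obtain ⟨U, hU, hKU, hjU⟩ := h _ hj
    exact hjU ((col_isOpen_iff.1 hU).1 p i j (hKU hi) hij)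
  · intro h b hb
    refine ⟨{c : Col M | c.pt = b.pt → b.ht + 1 ≤ c.ht}, isOpen_notBelow _ _, ?_, ?_⟩
    · intro c hc hcb
      by_contra hlt
      apply hb
      have := h c.pt c.ht b.ht hc (by omega)
      rw [hcb] at this
      exact this
    · intro h'
      have h'' : b.ht + 1 ≤ b.ht := h' rfl
      omega

theorem col_compact {K : Set (Col M)} (hC : IsCompact (Col.pt '' K)) : IsCompact K := by
  classical
  rw [isCompact_iff_finite_subcover]
  intro ι U hU hcov
  -- the lowest point of each column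
  have hlow : ∀ p ∈ Col.pt '' K, ∃ n, (⟨p, n⟩ : Col M) ∈ K ∧ ∀ m, (⟨p, m⟩ : Col M) ∈ K → n ≤ m := by
    rintro _ ⟨a, ha, rfl⟩
    have hex : ∃ n, (⟨a.pt, n⟩ : Col M) ∈ K := ⟨a.ht, ha⟩
    exact ⟨Nat.find hex, Nat.find_spec hex, fun m hm => Nat.find_min' hex hm⟩
  have hW : ∀ p : Col.pt '' K, ∃ (i : ι) (W : Set M), IsOpen W ∧ (p : M) ∈ W ∧
      ∀ a ∈ K, a.pt ∈ W → a ∈ U i := by
    rintro ⟨p, hp⟩
    obtain ⟨n, hn, hmin⟩ := hlow p hp
    obtain ⟨i, hi⟩ := mem_iUnion.1 (hcov hn)
    obtain ⟨W, hW, hpW, hWU⟩ := (col_isOpen_iff.1 (hU i)).2 _ hi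
    refine ⟨i, W, hW, hpW, fun a ha haW => ?_⟩
    by_cases hap : a.pt = p
    · have h1 : n ≤ a.ht := hmin _ (by rw [← hap]; exact ha)
      have h2 := (col_isOpen_iff.1 (hU i)).1 p n a.ht hi h1
      rw [← hap] at h2
      exact h2
    · exact hWU a.pt haW hap a.ht
  choose i W hW1 hW2 hW3 using hW
  obtain ⟨t, ht⟩ := hC.elim_finite_subcover W hW1 (fun p hp => mem_iUnion.2 ⟨⟨p, hp⟩, hW2 _⟩)
  refine ⟨t.image i, fun a ha => ?_⟩
  obtain ⟨p, hp⟩ := mem_iUnion.1 (ht ⟨a, ha, rfl⟩)
  obtain ⟨hpt, hap⟩ := mem_iUnion.1 hp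
  exact mem_iUnion₂.2 ⟨i p, Finset.mem_image.2 ⟨p, hpt, rfl⟩, hW3 p a ha hap⟩

/-- The column space is co-sober. -/
theorem coSober_col [T1Space M] : CoSober (Col M) := by
  classical
  rintro G ⟨⟨a, ha⟩, hGc, hGs, hirr⟩
  have hup := col_saturated_iff.1 hGs
  have hex : ∃ n, (⟨a.pt, n⟩ : Col M) ∈ G := ⟨a.ht, ha⟩
  let n := Nat.find hex
  have hn : (⟨a.pt, n⟩ : Col M) ∈ G := Nat.find_spec hex
  have hmin : ∀ m, (⟨a.pt, m⟩ : Col M) ∈ G → n ≤ m := fun m hm => Nat.find_min' hex hm
  have hup1 : ∀ p i j, (⟨p, i⟩ : Col M) ∈ G \ {⟨a.pt, n⟩} → i ≤ j →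
      (⟨p, j⟩ : Col M) ∈ G \ {⟨a.pt, n⟩} := by
    rintro p i j ⟨hi, hi'⟩ hij
    refine ⟨hup p i j hi hij, fun h => hi' ?_⟩
    rw [mem_singleton_iff, Col.mk.injEq] at h ⊢
    refine ⟨h.1, ?_⟩
    have := hmin i (by rw [← h.1]; exact hi)
    omega
  have hpt1 : Col.pt '' (G \ {⟨a.pt, n⟩}) = Col.pt '' G := by
    apply Subset.antisymm (image_mono sdiff_subset)
    rintro _ ⟨b, hb, rfl⟩
    refine ⟨⟨b.pt, b.ht + 1⟩, ⟨hup _ _ _ hb (Nat.le_succ _), fun h => ?_⟩, rfl⟩
    rw [mem_singleton_iff, Col.mk.injEq] at h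
    have := hmin b.ht (by rw [← h.1]; exact hb)
    omega
  have hup2 : ∀ p i j, (⟨p, i⟩ : Col M) ∈ above a.pt n → i ≤ j →
      (⟨p, j⟩ : Col M) ∈ above a.pt n := fun p i j h hij => ⟨h.1, h.2.trans hij⟩
  have hpt2 : Col.pt '' (above a.pt n) = {a.pt} := by
    ext q
    constructor
    · rintro ⟨b, hb, rfl⟩
      exact hb.1
    · intro hq
      exact ⟨⟨a.pt, n⟩, ⟨rfl, le_refl _⟩, (mem_singleton_iff.1 hq).symm⟩
  have hunion : (G \ {⟨a.pt, n⟩}) ∪ above a.pt n = G := by
    ext b
    constructor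
    · rintro (hb | ⟨hb1, hb2⟩)
      · exact hb.1
      · have := hup a.pt n b.ht hn hb2
        rw [← hb1] at this
        exact this
    · intro hb
      by_cases h : b = ⟨a.pt, n⟩
      · right
        rw [h]
        exact ⟨rfl, le_refl _⟩
      · exact Or.inl ⟨hb, h⟩
  rcases hirr _ _ (col_compact (hpt1 ▸ hGc.image continuous_pt))
    (col_saturated_iff.2 hup1) (col_compact (hpt2 ▸ isCompact_singleton))
    (col_saturated_iff.2 hup2) hunion with h | h
  · rw [← h] at hn
    exact (hn.2 rfl).elim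
  · refine ⟨⟨a.pt, n⟩, ?_⟩
    rw [← h]
    ext b
    exact (le_iff (⟨a.pt, n⟩ : Col M) b).symm

/-- The embedding of `M` at the bottom of the columns. -/
theorem continuous_bottom : Continuous (fun p : M => (⟨p, 0⟩ : Col M)) := by
  refine ⟨fun U hU => ?_⟩
  rw [col_isOpen_iff] at hU
  rw [isOpen_iff_forall_mem_open]
  intro p hp
  obtain ⟨W, hW, hpW, h⟩ := hU.2 _ hp
  refine ⟨W, fun q hq => ?_, hW, hpW⟩
  by_cases hqp : q = p
  · rw [hqp]
    exact hp
  · exact h q hq hqp 0

/-- `M` is homeomorphic to the image of the kernel operator. -/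
def toRange : M ≃ₜ range (ker : Col M → Col M) where
  toFun p := ⟨⟨p, 0⟩, ⟨⟨p, 0⟩, rfl⟩⟩
  invFun a := a.1.pt
  left_inv p := rfl
  right_inv := by
    rintro ⟨_, b, rfl⟩
    rfl
  continuous_toFun := continuous_bottom.subtype_mk _
  continuous_invFun := continuous_pt.comp continuous_subtype_val

theorem Saturated.preimage {X Y : Type} [TopologicalSpace X] [TopologicalSpace Y] (e : X ≃ₜ Y)
    {K : Set Y} (h : Saturated K) : Saturated (e ⁻¹' K) := by
  rw [saturated_iff_sep] at h ⊢
  intro x hx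
  obtain ⟨U, hU, hKU, hxU⟩ := h (e x) hx
  exact ⟨e ⁻¹' U, hU.preimage e.continuous, preimage_mono hKU, hxU⟩

theorem CoSober.homeomorph {X Y : Type} [TopologicalSpace X] [TopologicalSpace Y] (e : X ≃ₜ Y)
    (h : CoSober X) : CoSober Y := by
  rintro G ⟨hne, hc, hs, hirr⟩
  have hG : KIrreducible (e ⁻¹' G) := by
    refine ⟨?_, e.isCompact_preimage.2 hc, hs.preimage e, ?_⟩
    · obtain ⟨y, hy⟩ := hne
      exact ⟨e.symm y, by simpa using hy⟩
    · intro K₁ K₂ hK₁ hS₁ hK₂ hS₂ hK
      have := hirr (e.symm ⁻¹' K₁) (e.symm ⁻¹' K₂) (e.symm.isCompact_preimage.2 hK₁)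
        (hS₁.preimage e.symm) (e.symm.isCompact_preimage.2 hK₂) (hS₂.preimage e.symm) (by
          rw [← preimage_union, hK]
          ext y
          simp)
      rcases this with h | h
      · left
        rw [← h]
        ext x
        simp
      · right
        rw [← h]
        ext x
        simp
  obtain ⟨x, hx⟩ := h _ hG
  refine ⟨e x, ?_⟩
  ext y
  have h1 : e.symm y ∈ e ⁻¹' G ↔ y ∈ G := by simp
  rw [← h1, hx]
  show x ∈ closure {e.symm y} ↔ e x ∈ closure {y}
  rw [← specializes_iff_mem_closure, ← specializes_iff_mem_closure]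
  constructor
  · intro h
    have := h.map e.continuous
    simpa using this
  · intro h
    have := h.map e.symm.continuous
    simpa using this

/-- Every `T1` space is homeomorphic to the image of a continuous kernel operator on a co-sober
`T0` space. -/
theorem main_of_not_coSober [T1Space M] (hM : ¬ CoSober M) :
    ∃ (X : Type) (_ : TopologicalSpace X) (_ : T0Space X) (k : X → X), CoSober X ∧ Continuous k ∧
      (∀ x, k x ∈ closure {x}) ∧ (∀ x, k (k x) = k x) ∧ ¬ CoSober (range k) :=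
  ⟨Col M, inferInstance, inferInstance, ker, coSober_col, continuous_ker, ker_le, fun _ => rfl,
    fun h => hM (h.homeomorph toRange.symm)⟩

end Column

/-! ### A compact irreducible `T1` space in which compact sets are closed -/

section Interleave

variable {α : Type} (p : α) (bad : List α → Prop)

/-- The restriction of a sequence to the first `n` places, as a list. -/
def res (x : ℕ → α) (n : ℕ) : List α := (List.range n).map x

theorem res_length (x : ℕ → α) (n : ℕ) : (res x n).length = n := by simp [res]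

theorem res_congr {x y : ℕ → α} {n : ℕ} (h : ∀ i < n, x i = y i) : res x n = res y n := by
  unfold res
  apply List.map_congr_left
  intro i hi
  exact h i (List.mem_range.1 hi)

theorem res_inj {x y : ℕ → α} {n m : ℕ} (h : res x n = res y m) : n = m ∧ ∀ i < n, x i = y i := by
  have h1 : n = m := by
    have := congrArg List.length h
    rwa [res_length, res_length] at this
  subst h1
  refine ⟨rfl, fun i hi => ?_⟩
  unfold res at h
  exact List.map_inj_left.1 h i (List.mem_range.2 hi)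

/-- Two interleaved branches through infinitely many bad nodes, one of which has the value `p` at
each place. -/
theorem interleave (hbad : ∀ (x : ℕ → α) (n : ℕ), ∃ (m : ℕ) (y : ℕ → α), n ≤ m ∧
    (∀ i < n, y i = x i) ∧ bad (res y m)) :
    ∃ x y : ℕ → α, (∀ n, x n = p ∨ y n = p) ∧ (∀ N, ∃ n ≥ N, bad (res x n)) ∧
      (∀ N, ∃ n ≥ N, bad (res y n)) := by
  classical
  let St := {s : ℕ × (ℕ → α) × (ℕ → α) // ∀ i < s.1, s.2.1 i = p ∨ s.2.2 i = p}
  have hstep : ∀ s : St, ∃ s' : St, s.1.1 < s'.1.1 ∧ (∀ i < s.1.1, s'.1.2.1 i = s.1.2.1 i) ∧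
      (∀ i < s.1.1, s'.1.2.2 i = s.1.2.2 i) ∧
      (∃ m, s.1.1 ≤ m ∧ m ≤ s'.1.1 ∧ bad (res s'.1.2.1 m)) ∧
      (∃ m, s.1.1 ≤ m ∧ m ≤ s'.1.1 ∧ bad (res s'.1.2.2 m)) := by
    rintro ⟨⟨n, f, g⟩, hfg⟩
    obtain ⟨m, f', hnm, hf', hbf⟩ := hbad f (n + 1)
    let g' : ℕ → α := fun i => if i < n then g i else p
    obtain ⟨k, g'', hmk, hg'', hbg⟩ := hbad g' m
    let f'' : ℕ → α := fun i => if i < m then f' i else p
    have hinv : ∀ i < k, f'' i = p ∨ g'' i = p := by
      intro i hi
      by_cases him : i < m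
      · by_cases hin : i < n
        · rcases hfg i hin with h | h
          · left
            show (if i < m then f' i else p) = p
            rw [if_pos him, hf' i (by omega)]
            exact h
          · right
            rw [hg'' i him]
            show (if i < n then g i else p) = p
            rw [if_pos hin]
            exact h
        · right
          rw [hg'' i him]
          show (if i < n then g i else p) = p
          rw [if_neg hin]
      · left
        show (if i < m then f' i else p) = p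
        rw [if_neg him]
    refine ⟨⟨⟨k, f'', g''⟩, hinv⟩, ?_, ?_, ?_, ⟨m, ?_, hmk, ?_⟩, ⟨k, ?_, le_rfl, hbg⟩⟩
    · show n < k
      omega
    · intro i hi
      have hi' : i < n := hi
      show (if i < m then f' i else p) = f i
      rw [if_pos (by omega), hf' i (by omega)]
    · intro i hi
      have hi' : i < n := hi
      show g'' i = g i
      rw [hg'' i (by omega)]
      show (if i < n then g i else p) = g i
      rw [if_pos hi']
    · show n ≤ m
      omega
    · show bad (res f'' m)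
      rw [show res f'' m = res f' m from res_congr fun i hi => if_pos hi]
      exact hbf
    · show n ≤ k
      omega
  choose F hF1 hF2 hF3 hF4 hF5 using hstep
  let s : ℕ → St := fun k => Nat.rec ⟨(0, (fun _ => p), fun _ => p), fun i hi => Or.inl rfl⟩
    (fun _ s => F s) k
  have hs : ∀ k, s (k + 1) = F (s k) := fun _ => rfl
  have hlen : ∀ k, k ≤ (s k).1.1 := by
    intro k
    induction k with
    | zero => exact Nat.zero_le _
    | succ k ih =>
      have := hF1 (s k)
      rw [hs]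
      omega
  have hmono : ∀ k l, k ≤ l → (s k).1.1 ≤ (s l).1.1 := by
    intro k l hkl
    induction hkl with
    | refl => exact le_rfl
    | step _ ih => exact ih.trans (hs _ ▸ (hF1 _).le)
  have hagx : ∀ k l, k ≤ l → ∀ i < (s k).1.1, (s l).1.2.1 i = (s k).1.2.1 i := by
    intro k l hkl
    induction hkl with
    | refl => exact fun _ _ => rfl
    | @step l hkl' ih =>
      intro i hi
      rw [hs, hF2 _ i (lt_of_lt_of_le hi (hmono k l hkl'))]
      exact ih i hi
  have hagy : ∀ k l, k ≤ l → ∀ i < (s k).1.1, (s l).1.2.2 i = (s k).1.2.2 i := by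
    intro k l hkl
    induction hkl with
    | refl => exact fun _ _ => rfl
    | @step l hkl' ih =>
      intro i hi
      rw [hs, hF3 _ i (lt_of_lt_of_le hi (hmono k l hkl'))]
      exact ih i hi
  let x : ℕ → α := fun i => (s (i + 1)).1.2.1 i
  let y : ℕ → α := fun i => (s (i + 1)).1.2.2 i
  have hx : ∀ k, ∀ i < (s k).1.1, x i = (s k).1.2.1 i := by
    intro k i hi
    rcases le_total (i + 1) k with h | h
    · exact (hagx _ _ h i (lt_of_lt_of_le (Nat.lt_succ_self i) (hlen (i + 1)))).symm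
    · exact hagx _ _ h i hi
  have hy : ∀ k, ∀ i < (s k).1.1, y i = (s k).1.2.2 i := by
    intro k i hi
    rcases le_total (i + 1) k with h | h
    · exact (hagy _ _ h i (lt_of_lt_of_le (Nat.lt_succ_self i) (hlen (i + 1)))).symm
    · exact hagy _ _ h i hi
  refine ⟨x, y, fun n => ?_, fun N => ?_, fun N => ?_⟩
  · exact (s (n + 1)).2 n (lt_of_lt_of_le (Nat.lt_succ_self n) (hlen (n + 1)))
  · obtain ⟨m, hm1, hm2, hm3⟩ := hF4 (s N)
    refine ⟨m, (hlen N).trans hm1, ?_⟩
    rw [show res x m = res (s (N + 1)).1.2.1 m from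
      res_congr fun i hi => hx (N + 1) i (lt_of_lt_of_le hi hm2)]
    exact hm3
  · obtain ⟨m, hm1, hm2, hm3⟩ := hF5 (s N)
    refine ⟨m, (hlen N).trans hm1, ?_⟩
    rw [show res y m = res (s (N + 1)).1.2.2 m from
      res_congr fun i hi => hy (N + 1) i (lt_of_lt_of_le hi hm2)]
    exact hm3

end Interleave

/-- A countably infinite set. -/
structure Pt where
  val : ℕ

theorem Pt.val_injective : Function.Injective Pt.val := by
  rintro ⟨a⟩ ⟨b⟩ h
  exact congrArg Pt.mk h

instance : Countable Pt := Pt.val_injective.countable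

instance : Infinite Pt := Infinite.of_injective Pt.mk fun _ _ h => congrArg Pt.val h

/-- An injective coding of finite sequences of points by points. -/
noncomputable def node (l : List Pt) : Pt := ⟨(exists_injective_nat (List Pt)).choose l⟩

theorem node_injective : Function.Injective node := fun _ _ h =>
  (exists_injective_nat (List Pt)).choose_spec (congrArg Pt.val h)

/-- The set of nodes on a branch. -/
def Br (x : ℕ → Pt) : Set Pt := range fun n => node (res x n)

/-- The sequence `x` takes the value `p` on a set of a fixed free ultrafilter. -/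
def Lim (x : ℕ → Pt) (p : Pt) : Prop := {n | x n = p} ∈ hyperfilter ℕ

theorem Lim.unique {x : ℕ → Pt} {p q : Pt} (h : Lim x p) (h' : Lim x q) : p = q := by
  obtain ⟨n, hn, hn'⟩ := (hyperfilter ℕ).nonempty_of_mem (inter_mem h h')
  exact (hn : x n = p).symm.trans hn'

theorem br_inter_finite {x y : ℕ → Pt} (h : x ≠ y) : (Br x ∩ Br y).Finite := by
  obtain ⟨m, hm⟩ := Function.ne_iff.1 h
  refine ((finite_Iic m).image fun n => node (res x n)).subset ?_
  rintro _ ⟨⟨n, rfl⟩, ⟨k, hk⟩⟩
  refine ⟨n, ?_, rfl⟩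
  obtain ⟨h1, h2⟩ := res_inj (node_injective hk)
  show n ≤ m
  by_contra hlt
  exact hm (h2 m (by omega)).symm

theorem br_infinite (x : ℕ → Pt) (N : ℕ) : ((fun n => node (res x n)) '' Ici N).Infinite := by
  refine Infinite.image ?_ (Set.Ici_infinite N)
  intro n _ m _ h
  exact (res_inj (node_injective h)).1

/-- The set `B` converges to `p`. -/
def Conv (B : Set Pt) (p : Pt) : Prop :=
  (∃ x, Lim x p ∧ B ⊆ Br x) ∨ (p = ⟨0⟩ ∧ ∀ x q, Lim x q → (B ∩ Br x).Finite)

theorem Conv.mono {B C : Set Pt} {p : Pt} (h : Conv B p) (hC : C ⊆ B) : Conv C p := by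
  rcases h with ⟨x, hx, hB⟩ | ⟨hp, hB⟩
  · exact Or.inl ⟨x, hx, hC.trans hB⟩
  · exact Or.inr ⟨hp, fun x q hx => (hB x q hx).subset (inter_subset_inter_left _ hC)⟩

theorem Conv.inter_finite {B C : Set Pt} {p q : Pt} (h : Conv B p) (h' : Conv C q) (hpq : p ≠ q) :
    (B ∩ C).Finite := by
  rcases h with ⟨x, hx, hB⟩ | ⟨hp, hB⟩
  · rcases h' with ⟨y, hy, hC⟩ | ⟨hq, hC⟩
    · refine (br_inter_finite (x := x) (y := y) ?_).subset (inter_subset_inter hB hC)
      rintro rfl
      exact hpq (hx.unique hy)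
    · refine (hC x p hx).subset ?_
      rw [inter_comm]
      exact inter_subset_inter_right _ hB
  · rcases h' with ⟨y, hy, hC⟩ | ⟨hq, hC⟩
    · exact (hB y q hy).subset (inter_subset_inter_right _ hC)
    · exact (hpq (hp.trans hq.symm)).elim

theorem exists_conv {B : Set Pt} (hB : B.Infinite) : ∃ C ⊆ B, C.Infinite ∧ ∃ p, Conv C p := by
  by_cases h : ∃ x q, Lim x q ∧ (B ∩ Br x).Infinite
  · obtain ⟨x, q, hx, hinf⟩ := h
    exact ⟨B ∩ Br x, inter_subset_left, hinf, q, Or.inl ⟨x, hx, inter_subset_right⟩⟩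
  · push Not at h
    exact ⟨B, Subset.rfl, hB, ⟨0⟩, Or.inr ⟨rfl, fun x q hx => h x q hx⟩⟩

/-- The topology: a set is open iff it contains almost all points of each set that converges to one
of its points. -/
instance : TopologicalSpace Pt where
  IsOpen U := ∀ p ∈ U, ∀ B, Conv B p → (B \ U).Finite
  isOpen_univ := fun _ _ B _ => by
    rw [sdiff_univ]
    exact finite_empty
  isOpen_inter := by
    intro U V hU hV p hp B hB
    refine ((hU p hp.1 B hB).union (hV p hp.2 B hB)).subset ?_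
    rintro b ⟨hb, hb'⟩
    by_cases h : b ∈ U
    · exact Or.inr ⟨hb, fun h' => hb' ⟨h, h'⟩⟩
    · exact Or.inl ⟨hb, h⟩
  isOpen_sUnion := by
    rintro S hS p ⟨U, hU, hp⟩ B hB
    exact (hS U hU p hp B hB).subset (sdiff_subset_sdiff_right (subset_sUnion_of_mem hU))

theorem pt_isOpen_iff {U : Set Pt} :
    IsOpen U ↔ ∀ p ∈ U, ∀ B, Conv B p → (B \ U).Finite := Iff.rfl

instance : T1Space Pt := by
  refine ⟨fun x => ?_⟩
  rw [← isOpen_compl_iff, pt_isOpen_iff]
  intro p _ B _
  refine (finite_singleton x).subset ?_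
  rintro b ⟨_, hb⟩
  by_contra hne
  exact hb hne

/-- A set that converges to a point is closed together with that point. -/
theorem Conv.isClosed {B : Set Pt} {p : Pt} (h : Conv B p) : IsClosed (insert p B) := by
  rw [← isOpen_compl_iff, pt_isOpen_iff]
  intro q hq C hC
  have hqp : p ≠ q := fun h => hq (Or.inl h.symm)
  refine ((h.inter_finite hC hqp).union (finite_singleton p)).subset ?_
  rintro b ⟨hb, hb'⟩
  rw [mem_compl_iff, not_not] at hb'
  rcases hb' with h1 | h1
  · exact Or.inr h1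
  · exact Or.inl ⟨h1, hb⟩

/-- Compact sets are closed. -/
theorem pt_isClosed_of_isCompact {K : Set Pt} (hK : IsCompact K) : IsClosed K := by
  rw [← isOpen_compl_iff, pt_isOpen_iff]
  intro p hp B hB
  have hsub : B \ Kᶜ ⊆ K ∩ B := by
    rintro b ⟨hb, hb'⟩
    exact ⟨not_not.1 hb', hb⟩
  refine Finite.subset ?_ hsub
  have hconv : Conv (K ∩ B) p := hB.mono inter_subset_right
  have hcomp : IsCompact (K ∩ B) := by
    have h1 : K ∩ insert p (K ∩ B) = K ∩ B := by
      ext b
      constructor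
      · rintro ⟨hb, hb' | hb'⟩
        · exact (hp (hb' ▸ hb)).elim
        · exact hb'
      · intro hb
        exact ⟨hb.1, Or.inr hb⟩
    rw [← h1]
    exact hK.inter_right hconv.isClosed
  obtain ⟨t, ht⟩ := hcomp.elim_finite_subcover
    (fun b : Pt => (insert p ((K ∩ B) \ {b}))ᶜ)
    (fun b => (hconv.mono sdiff_subset).isClosed.isOpen_compl) (by
      intro b hb
      refine mem_iUnion.2 ⟨b, ?_⟩
      rintro (h | h)
      · exact hp (h ▸ hb.1)
      · exact h.2 rfl)
  refine t.finite_toSet.subset fun b hb => ?_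
  obtain ⟨c, hc⟩ := mem_iUnion.1 (ht hb)
  obtain ⟨hct, hbc⟩ := mem_iUnion.1 hc
  have : b = c := by
    by_contra hne
    exact hbc (Or.inr ⟨hb, hne⟩)
  rw [this]
  exact hct

/-- The space is compact. -/
theorem pt_isCompact_univ : IsCompact (univ : Set Pt) := by
  classical
  rw [isCompact_iff_finite_subcover]
  intro ι U hU hcov
  by_contra hcon
  push Not at hcon
  have h1 : ∀ p : Pt, ∃ i, p ∈ U i := fun p => mem_iUnion.1 (hcov (mem_univ p))
  choose i hi using h1
  have h2 : ∀ n : ℕ, ∃ b : Pt, ∀ m < n, b ∉ U (i ⟨m⟩) := by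
    intro n
    obtain ⟨b, -, hb⟩ := Set.not_subset.1 (hcon ((Finset.range n).image fun m => i ⟨m⟩))
    refine ⟨b, fun m hm hbm => hb ?_⟩
    exact mem_iUnion₂.2 ⟨i ⟨m⟩, Finset.mem_image.2 ⟨m, Finset.mem_range.2 hm, rfl⟩, hbm⟩
  choose b hb using h2
  have hfin : ∀ m, {n | b n ∈ U (i ⟨m⟩)} ⊆ Iic m := by
    intro m n hn
    by_contra hlt
    exact hb n m (not_le.1 hlt) hn
  have hinf : (range b).Infinite := by
    intro hfinr
    have h3 : ∃ p, {n | b n = p}.Infinite := by
      by_contra hcon'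
      push Not at hcon'
      apply infinite_univ (α := ℕ)
      refine (hfinr.biUnion (t := fun p => {n | b n = p}) fun p _ => ?_).subset ?_
      · exact hcon' p
      · intro n _
        exact mem_iUnion₂.2 ⟨b n, mem_range_self n, rfl⟩
    obtain ⟨p, hp⟩ := h3
    apply hp
    refine (finite_Iic p.val).subset fun n hn => hfin p.val ?_
    show b n ∈ U (i ⟨p.val⟩)
    rw [show b n = p from hn]
    exact hi p
  obtain ⟨C, hC, hCinf, p, hCp⟩ := exists_conv hinf
  have h4 := pt_isOpen_iff.1 (hU (i p)) p (hi p) C hCp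
  have h5 : (C ∩ U (i p)).Finite := by
    refine ((finite_Iic p.val).image b).subset ?_
    rintro c ⟨hc, hc'⟩
    obtain ⟨n, rfl⟩ := hC hc
    exact ⟨n, hfin p.val hc', rfl⟩
  apply hCinf
  rw [← inter_union_sdiff C (U (i p))]
  exact h5.union h4

/-- An open set that contains a point contains a cone of the tree. -/
theorem exists_cone {U : Set Pt} (hU : IsOpen U) {p : Pt} (hp : p ∈ U) :
    ∃ (x : ℕ → Pt) (n : ℕ), ∀ (m : ℕ) (y : ℕ → Pt), n ≤ m → (∀ i < n, y i = x i) →
      node (res y m) ∈ U := by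
  by_contra hcon
  push Not at hcon
  obtain ⟨x, y, hxy, hx, hy⟩ := interleave p (fun l => node l ∉ U) (by
    intro x n
    obtain ⟨m, y, h1, h2, h3⟩ := hcon x n
    exact ⟨m, y, h1, h2, h3⟩)
  have hbr : ∀ z : ℕ → Pt, (∀ N, ∃ n ≥ N, node (res z n) ∉ U) → ¬ Lim z p := by
    intro z hz hlim
    have h1 := pt_isOpen_iff.1 hU p hp (Br z) (Or.inl ⟨z, hlim, Subset.rfl⟩)
    have h2 : {n | node (res z n) ∉ U}.Infinite := by
      rw [← Nat.frequently_atTop_iff_infinite, frequently_atTop]
      exact hz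
    have h3 : ((fun n => node (res z n)) '' {n | node (res z n) ∉ U}).Infinite :=
      h2.image fun n _ m _ h => (res_inj (node_injective h)).1
    apply h3
    refine h1.subset ?_
    rintro _ ⟨n, hn, rfl⟩
    exact ⟨⟨n, rfl⟩, hn⟩
  have h1 : ({n | x n = p} ∪ {n | y n = p}) ∈ hyperfilter ℕ := by
    have : ({n | x n = p} ∪ {n | y n = p}) = univ := eq_univ_of_forall hxy
    rw [this]
    exact univ_mem
  rcases Ultrafilter.union_mem_iff.1 h1 with h | h
  · exact hbr x hx h
  · exact hbr y hy h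

/-- Any two nonempty open sets meet. -/
theorem pt_inter_nonempty {U V : Set Pt} (hU : IsOpen U) (hV : IsOpen V) (hUn : U.Nonempty)
    (hVn : V.Nonempty) : (U ∩ V).Nonempty := by
  classical
  obtain ⟨p, hp⟩ := hUn
  obtain ⟨q, hq⟩ := hVn
  obtain ⟨x, n, hx⟩ := exists_cone hU hp
  let y : ℕ → Pt := fun i => if i < n then x i else q
  have hlim : Lim y q := by
    have h0 : {i | n ≤ i} ∈ hyperfilter ℕ := by
      apply hyperfilter_le_cofinite
      rw [mem_cofinite]
      refine (finite_Iio n).subset fun i hi => ?_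
      have hi' : ¬ n ≤ i := hi
      exact not_le.1 hi'
    exact mem_of_superset h0 fun i hi => if_neg (not_lt.2 hi)
  have h1 := pt_isOpen_iff.1 hV q hq (Br y) (Or.inl ⟨y, hlim, Subset.rfl⟩)
  have h2 := br_infinite y n
  by_contra hcon
  rw [not_nonempty_iff_eq_empty] at hcon
  apply h2
  refine h1.subset ?_
  rintro _ ⟨m, hm, rfl⟩
  refine ⟨⟨m, rfl⟩, fun hmV => ?_⟩
  have hmU : node (res y m) ∈ U := hx m y hm fun i hi => if_pos hi
  have : node (res y m) ∈ U ∩ V := ⟨hmU, hmV⟩
  rw [hcon] at this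
  exact this

theorem saturated_of_t1 {X : Type} [TopologicalSpace X] [T1Space X] (K : Set X) :
    Saturated K := by
  rw [saturated_iff_sep]
  intro x hx
  refine ⟨{x}ᶜ, isOpen_compl_singleton, fun y hy hyx => ?_, fun h => h rfl⟩
  rw [mem_singleton_iff] at hyx
  exact hx (hyx ▸ hy)

theorem not_coSober_pt : ¬ CoSober Pt := by
  intro h
  obtain ⟨x, hx⟩ := h univ ⟨univ_nonempty, pt_isCompact_univ, saturated_of_t1 _, by
    intro K₁ K₂ h1 _ h2 _ h3
    by_contra hcon
    push Not at hcon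
    have hne : ∀ K : Set Pt, K ≠ univ → Kᶜ.Nonempty := fun K hK => nonempty_compl.2 hK
    obtain ⟨y, hy1, hy2⟩ := pt_inter_nonempty (pt_isClosed_of_isCompact h1).isOpen_compl
      (pt_isClosed_of_isCompact h2).isOpen_compl (hne _ hcon.1) (hne _ hcon.2)
    have : y ∈ K₁ ∪ K₂ := by rw [h3]; trivial
    rcases this with h | h
    · exact hy1 h
    · exact hy2 h⟩
  have h1 : ∀ y : Pt, y = x := by
    intro y
    have : y ∈ {y | x ∈ closure {y}} := by rw [← hx]; trivial
    have h2 : x ∈ closure {y} := this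
    rw [closure_singleton, mem_singleton_iff] at h2
    exact h2.symm
  have h2 := (h1 ⟨0⟩).trans (h1 ⟨1⟩).symm
  exact absurd (congrArg Pt.val h2) (by norm_num)

/-- There is a co-sober `T0` space with a continuous kernel operator whose image is not
co-sober. -/
theorem result : ∃ (X : Type) (_ : TopologicalSpace X) (_ : T0Space X) (k : X → X), CoSober X ∧
    Continuous k ∧ (∀ x, k x ∈ closure {x}) ∧ (∀ x, k (k x) = k x) ∧ ¬ CoSober (range k) :=
  main_of_not_coSober not_coSober_pt

end Pool.Agent.Results.MP_1ae613_gt.KernelImage
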